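import Pool.Agent.Helper923.PNT
import Pool.Agent.H362R2.FS.Upper

/-!
# MP_3341c6_nt: the lower half of the asymptotic, with the sharp constant 1 (helper362)

`f n = ∑_{q < n, q prime} 1/(n-q)`.  Proved: `∑_{p<x} f(p) ≥ (1-ε) π(x)` and
`∑_{p<x} f(p)² ≥ (1-ε) π(x)` for all large `x`.

Method: `1/d` is a mixture of Fejér kernels `(H-d)^+`; for each of them the sum over pairs of
primes is at least the expected value by Cauchy-Schwarz over windows of length `H`.
-/

set_option autoImplicit false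

namespace Pool.Agent.Results.MP_3341c6_nt.SharpLowerBound

open Finset Filter Topology

/-- the function of the problem -/
noncomputable def f (n : ℕ) : ℝ := ∑ q ∈ (range n).filter Nat.Prime, (1 : ℝ) / ((n : ℝ) - q)

/-- second difference of `1/H` -/
noncomputable def w (H : ℕ) : ℝ := 2 / (((H : ℝ) - 1) * H * ((H : ℝ) + 1))

theorem w_nonneg (H : ℕ) (hH : 2 ≤ H) : 0 ≤ w H := by
  have h : (2 : ℝ) ≤ H := by exact_mod_cast hH
  unfold w
  apply div_nonneg (by norm_num)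
  apply mul_nonneg (mul_nonneg _ _) <;> linarith

theorem mix_eq (d M : ℕ) (hd : 1 ≤ d) (hM : d ≤ M) :
    ∑ H ∈ Icc 2 M, w H * ((H - d : ℕ) : ℝ) =
      1 / d - (2 * (M : ℝ) + 1 - d) / (M * ((M : ℝ) + 1)) := by
  have hd' : (1 : ℝ) ≤ d := by exact_mod_cast hd
  induction M, hM using Nat.le_induction with
  | base =>
    rw [Finset.sum_eq_zero]
    · have : (2 * (d : ℝ) + 1 - d) / (d * ((d : ℝ) + 1)) = 1 / d := by
        have h1 : (d : ℝ) ≠ 0 := by positivity
        have h2 : (d : ℝ) + 1 ≠ 0 := by positivity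
        field_simp
        ring
      rw [this, sub_self]
    · intro H hH
      rw [Finset.mem_Icc] at hH
      have : H - d = 0 := by omega
      rw [this]
      simp
  | succ M hM ih =>
    have hM' : (d : ℝ) ≤ M := by exact_mod_cast hM
    by_cases h1 : 1 ≤ M
    · rw [Finset.sum_Icc_succ_top (by omega), ih]
      have e1 : ((M + 1 - d : ℕ) : ℝ) = (M : ℝ) + 1 - d := by
        rw [Nat.cast_sub (by omega)]
        push_cast
        ring
      rw [e1]
      unfold w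
      have hM1 : (1 : ℝ) ≤ M := by exact_mod_cast h1
      have a1 : (M : ℝ) ≠ 0 := by positivity
      have a2 : (M : ℝ) + 1 ≠ 0 := by positivity
      have a3 : (M : ℝ) + 2 ≠ 0 := by positivity
      have a4 : (d : ℝ) ≠ 0 := by positivity
      push_cast
      have b1 : (M : ℝ) + 1 - 1 = M := by ring
      have b2 : (M : ℝ) + 1 + 1 = M + 2 := by ring
      rw [b1, b2]
      field_simp
      ring
    · omega

theorem mix_le (d M : ℕ) (hd : 1 ≤ d) :
    ∑ H ∈ Icc 2 M, w H * ((H - d : ℕ) : ℝ) ≤ 1 / d := by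
  by_cases hM : d ≤ M
  · rw [mix_eq d M hd hM]
    have h1 : (1 : ℝ) ≤ d := by exact_mod_cast hd
    have h2 : (d : ℝ) ≤ M := by exact_mod_cast hM
    have : 0 ≤ (2 * (M : ℝ) + 1 - d) / (M * ((M : ℝ) + 1)) := by
      apply div_nonneg
      · linarith
      · nlinarith
    linarith
  · rw [Finset.sum_eq_zero]
    · positivity
    · intro H hH
      rw [Finset.mem_Icc] at hH
      have : H - d = 0 := by omega
      rw [this]
      simp

/-- sum of `(H - |p-q|)^+` over the pairs `q < p` -/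
noncomputable def T (P : Finset ℕ) (H : ℕ) : ℝ :=
  ∑ p ∈ P, ∑ q ∈ P.filter (fun q => q < p), ((H - (p - q) : ℕ) : ℝ)

theorem window_card (P : Finset ℕ) (H x p q : ℕ) (hp : p < x) (hqp : q ≤ p) :
    ((range (x + H)).filter (fun t => (p ≤ t ∧ t < p + H) ∧ (q ≤ t ∧ t < q + H))).card =
      H - (p - q) := by
  have : (range (x + H)).filter (fun t => (p ≤ t ∧ t < p + H) ∧ (q ≤ t ∧ t < q + H)) =
      Ico p (q + H) := by
    ext t
    simp only [mem_filter, mem_range, mem_Ico]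
    omega
  rw [this, Nat.card_Ico]
  omega

theorem fejer (P : Finset ℕ) (H x : ℕ) (hP : ∀ p ∈ P, p < x) :
    ((H : ℝ) * P.card) ^ 2 ≤ ((x : ℝ) + H) * (P.card * H + 2 * T P H) := by
  classical
  set N : ℕ → ℝ := fun t => ∑ p ∈ P, if p ≤ t ∧ t < p + H then (1 : ℝ) else 0 with hN
  have h1 : ∑ t ∈ range (x + H), N t = (H : ℝ) * P.card := by
    simp only [hN]
    rw [Finset.sum_comm]
    have : ∀ p ∈ P, ∑ t ∈ range (x + H), (if p ≤ t ∧ t < p + H then (1 : ℝ) else 0) = H := by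
      intro p hp
      rw [Finset.sum_ite, Finset.sum_const_zero, add_zero, Finset.sum_const, nsmul_eq_mul, mul_one]
      have e : (range (x + H)).filter (fun t => p ≤ t ∧ t < p + H) = Ico p (p + H) := by
        ext t
        have := hP p hp
        simp only [mem_filter, mem_range, mem_Ico]
        omega
      rw [e, Nat.card_Ico]
      simp
    rw [Finset.sum_congr rfl this, Finset.sum_const, nsmul_eq_mul]
    ring
  have h2 : ∑ t ∈ range (x + H), N t ^ 2 =
      ∑ p ∈ P, ∑ q ∈ P, (((range (x + H)).filter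
        (fun t => (p ≤ t ∧ t < p + H) ∧ (q ≤ t ∧ t < q + H))).card : ℝ) := by
    have : ∀ t ∈ range (x + H), N t ^ 2 = ∑ p ∈ P, ∑ q ∈ P,
        (if (p ≤ t ∧ t < p + H) ∧ (q ≤ t ∧ t < q + H) then (1 : ℝ) else 0) := by
      intro t _
      rw [sq]
      simp only [hN]
      rw [Finset.sum_mul_sum]
      refine Finset.sum_congr rfl (fun p _ => Finset.sum_congr rfl (fun q _ => ?_))
      by_cases a : p ≤ t ∧ t < p + H <;> by_cases b : q ≤ t ∧ t < q + H <;> simp [a, b]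
    rw [Finset.sum_congr rfl this, Finset.sum_comm]
    refine Finset.sum_congr rfl (fun p _ => ?_)
    rw [Finset.sum_comm]
    refine Finset.sum_congr rfl (fun q _ => ?_)
    rw [Finset.sum_ite, Finset.sum_const_zero, add_zero, Finset.sum_const, nsmul_eq_mul, mul_one]
  have h3 : ∑ p ∈ P, ∑ q ∈ P, (((range (x + H)).filter
        (fun t => (p ≤ t ∧ t < p + H) ∧ (q ≤ t ∧ t < q + H))).card : ℝ) =
      P.card * H + 2 * T P H := by
    have hs : ∀ p ∈ P, ∀ q ∈ P, (((range (x + H)).filter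
        (fun t => (p ≤ t ∧ t < p + H) ∧ (q ≤ t ∧ t < q + H))).card : ℝ) =
        (if q < p then ((H - (p - q) : ℕ) : ℝ) else 0) +
          (if p < q then ((H - (q - p) : ℕ) : ℝ) else 0) + (if p = q then (H : ℝ) else 0) := by
      intro p hp q hq
      rcases lt_trichotomy q p with h | h | h
      · rw [window_card P H x p q (hP p hp) h.le, if_pos h, if_neg (by omega), if_neg (by omega)]
        ring
      · subst h
        rw [window_card P H x q q (hP q hq) le_rfl]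
        simp
      · have e : (range (x + H)).filter
            (fun t => (p ≤ t ∧ t < p + H) ∧ (q ≤ t ∧ t < q + H)) =
            (range (x + H)).filter
            (fun t => (q ≤ t ∧ t < q + H) ∧ (p ≤ t ∧ t < p + H)) := by
          apply Finset.filter_congr
          intro t _
          exact and_comm
        rw [e, window_card P H x q p (hP q hq) h.le, if_neg (by omega), if_pos h,
          if_neg (by omega)]
        ring
    rw [Finset.sum_congr rfl (fun p hp => Finset.sum_congr rfl (fun q hq => hs p hp q hq))]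
    simp only [Finset.sum_add_distrib]
    have a1 : ∑ p ∈ P, ∑ q ∈ P, (if q < p then ((H - (p - q) : ℕ) : ℝ) else 0) = T P H := by
      unfold T
      refine Finset.sum_congr rfl (fun p _ => ?_)
      rw [Finset.sum_filter]
    have a2 : ∑ p ∈ P, ∑ q ∈ P, (if p < q then ((H - (q - p) : ℕ) : ℝ) else 0) = T P H := by
      rw [Finset.sum_comm]
      exact a1
    have a3 : ∑ p ∈ P, ∑ q ∈ P, (if p = q then (H : ℝ) else 0) = P.card * H := by
      rw [Finset.sum_congr rfl (fun p hp => by rw [Finset.sum_ite_eq, if_pos hp]),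
        Finset.sum_const, nsmul_eq_mul]
    rw [a1, a2, a3]
    ring
  have hcs := sq_sum_le_card_mul_sum_sq (s := range (x + H)) (f := N)
  rw [h1, h2, h3, card_range] at hcs
  push_cast at hcs
  exact hcs

/-- sum of `1/(p-q)` over the pairs -/
noncomputable def R (P : Finset ℕ) : ℝ :=
  ∑ p ∈ P, ∑ q ∈ P.filter (fun q => q < p), (1 : ℝ) / ((p : ℝ) - q)

theorem R_ge (P : Finset ℕ) (A M : ℕ) (hA : 1 ≤ A) :
    ∑ H ∈ Icc (A + 1) M, w H * T P H ≤ R P := by
  classical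
  have h1 : ∑ H ∈ Icc (A + 1) M, w H * T P H =
      ∑ p ∈ P, ∑ q ∈ P.filter (fun q => q < p),
        ∑ H ∈ Icc (A + 1) M, w H * ((H - (p - q) : ℕ) : ℝ) := by
    unfold T
    simp only [Finset.mul_sum]
    rw [Finset.sum_comm]
    refine Finset.sum_congr rfl (fun p _ => ?_)
    rw [Finset.sum_comm]
  rw [h1]
  unfold R
  refine Finset.sum_le_sum (fun p _ => Finset.sum_le_sum (fun q hq => ?_))
  have hqp : q < p := (Finset.mem_filter.1 hq).2
  have e : ((p : ℝ) - q) = ((p - q : ℕ) : ℝ) := by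
    rw [Nat.cast_sub hqp.le]
  rw [e]
  refine le_trans ?_ (mix_le (p - q) M (by omega))
  apply Finset.sum_le_sum_of_subset_of_nonneg
  · apply Finset.Icc_subset_Icc _ le_rfl
    omega
  · intro H hH _
    exact mul_nonneg (w_nonneg H (Finset.mem_Icc.1 hH).1) (Nat.cast_nonneg _)

theorem term_ge (P : Finset ℕ) (H x M : ℕ) (hP : ∀ p ∈ P, p < x) (hH : 2 ≤ H) (hHM : H ≤ M)
    (hx : 0 < x) :
    (P.card : ℝ) ^ 2 / ((x : ℝ) + M) * (1 / H) -
      P.card * (1 / ((H : ℝ) - 1) - 1 / H) ≤ w H * T P H := by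
  have hH' : (2 : ℝ) ≤ H := by exact_mod_cast hH
  have hHM' : (H : ℝ) ≤ M := by exact_mod_cast hHM
  have hx' : (0 : ℝ) < x := by exact_mod_cast hx
  have hk : (0 : ℝ) ≤ P.card := Nat.cast_nonneg _
  have hf := fejer P H x hP
  have hT : ((H : ℝ) ^ 2 * (P.card : ℝ) ^ 2 / ((x : ℝ) + M) - P.card * H) / 2 ≤ T P H := by
    have h1 : (H : ℝ) ^ 2 * (P.card : ℝ) ^ 2 / ((x : ℝ) + H) ≤ P.card * H + 2 * T P H := by
      rw [div_le_iff₀ (by linarith)]
      nlinarith [hf]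
    have h2 : (H : ℝ) ^ 2 * (P.card : ℝ) ^ 2 / ((x : ℝ) + M) ≤
        (H : ℝ) ^ 2 * (P.card : ℝ) ^ 2 / ((x : ℝ) + H) := by
      apply div_le_div_of_nonneg_left (by positivity) (by linarith) (by linarith)
    linarith
  have hw := w_nonneg H hH
  refine le_trans ?_ (mul_le_mul_of_nonneg_left hT hw)
  have hH1 : (0 : ℝ) < (H : ℝ) - 1 := by linarith
  have e1 : w H * (((H : ℝ) ^ 2 * (P.card : ℝ) ^ 2 / ((x : ℝ) + M) - P.card * H) / 2) =
      (P.card : ℝ) ^ 2 / ((x : ℝ) + M) * (H / (((H : ℝ) - 1) * ((H : ℝ) + 1))) -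
        P.card * (1 / (((H : ℝ) - 1) * ((H : ℝ) + 1))) := by
    unfold w
    have c1 : (H : ℝ) ≠ 0 := by positivity
    have c2 : (H : ℝ) - 1 ≠ 0 := hH1.ne'
    have c3 : (H : ℝ) + 1 ≠ 0 := by positivity
    have c4 : (x : ℝ) + M ≠ 0 := by
      have : (0 : ℝ) ≤ M := Nat.cast_nonneg _
      positivity
    field_simp
  rw [e1]
  have g1 : 1 / (H : ℝ) ≤ H / (((H : ℝ) - 1) * ((H : ℝ) + 1)) := by
    rw [div_le_div_iff₀ (by linarith) (by positivity)]
    nlinarith
  have g2 : 1 / (((H : ℝ) - 1) * ((H : ℝ) + 1)) ≤ 1 / ((H : ℝ) - 1) - 1 / H := by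
    have : 1 / ((H : ℝ) - 1) - 1 / H = 1 / (((H : ℝ) - 1) * H) := by
      have c1 : (H : ℝ) ≠ 0 := by positivity
      field_simp
      ring
    rw [this]
    apply div_le_div_of_nonneg_left (by norm_num) (by positivity)
    nlinarith
  have g3 : 0 ≤ (P.card : ℝ) ^ 2 / ((x : ℝ) + M) := by positivity
  have g4 := mul_le_mul_of_nonneg_left g1 g3
  have g5 := mul_le_mul_of_nonneg_left g2 hk
  linarith

theorem harm_ge (A M : ℕ) (hA : 1 ≤ A) (hAM : A ≤ M) :
    Real.log ((M : ℝ) + 1) - Real.log ((A : ℝ) + 1) ≤ ∑ H ∈ Icc (A + 1) M, (1 : ℝ) / H := by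
  induction M, hAM using Nat.le_induction with
  | base => simp
  | succ M hM ih =>
    rw [Finset.sum_Icc_succ_top (by omega)]
    have h1 : (0 : ℝ) < (M : ℝ) + 1 := by positivity
    have h2 : Real.log ((M : ℝ) + 1 + 1) - Real.log ((M : ℝ) + 1) ≤ 1 / ((M : ℝ) + 1) := by
      rw [← Real.log_div (by positivity) h1.ne']
      have := Real.log_le_sub_one_of_pos (x := ((M : ℝ) + 1 + 1) / ((M : ℝ) + 1)) (by positivity)
      refine this.trans (le_of_eq ?_)
      field_simp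
      ring
    push_cast
    linarith

theorem tel (A M : ℕ) (hA : 1 ≤ A) (hAM : A ≤ M) :
    ∑ H ∈ Icc (A + 1) M, (1 / ((H : ℝ) - 1) - 1 / H) = 1 / A - 1 / M := by
  induction M, hAM using Nat.le_induction with
  | base => simp
  | succ M hM ih =>
    rw [Finset.sum_Icc_succ_top (by omega), ih]
    push_cast
    ring

theorem R_lower (P : Finset ℕ) (A M x : ℕ) (hP : ∀ p ∈ P, p < x) (hA : 1 ≤ A) (hAM : A ≤ M)
    (hx : 0 < x) :
    (P.card : ℝ) ^ 2 / ((x : ℝ) + M) * (Real.log ((M : ℝ) + 1) - Real.log ((A : ℝ) + 1)) -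
      P.card * (1 / A) ≤ R P := by
  refine le_trans ?_ (R_ge P A M hA)
  have h1 : ∑ H ∈ Icc (A + 1) M, ((P.card : ℝ) ^ 2 / ((x : ℝ) + M) * (1 / H) -
      P.card * (1 / ((H : ℝ) - 1) - 1 / H)) ≤ ∑ H ∈ Icc (A + 1) M, w H * T P H := by
    refine Finset.sum_le_sum (fun H hH => ?_)
    rw [Finset.mem_Icc] at hH
    exact term_ge P H x M hP (by omega) hH.2 hx
  refine le_trans ?_ h1
  rw [Finset.sum_sub_distrib, ← Finset.mul_sum, ← Finset.mul_sum, tel A M hA hAM]
  have g3 : 0 ≤ (P.card : ℝ) ^ 2 / ((x : ℝ) + M) := by positivity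
  have h2 := mul_le_mul_of_nonneg_left (harm_ge A M hA hAM) g3
  have h3 : (0 : ℝ) ≤ 1 / M := by positivity
  have hk : (0 : ℝ) ≤ P.card := Nat.cast_nonneg _
  have h4 := mul_nonneg hk h3
  linarith [mul_sub (P.card : ℝ) (1 / (A : ℝ)) (1 / (M : ℝ))]

/-- primes below `x` -/
def P (x : ℕ) : Finset ℕ := (range x).filter Nat.Prime

theorem card_P (x : ℕ) : (P x).card = Nat.primeCounting' x := by
  rw [Nat.primeCounting', Nat.count_eq_card_filter_range]
  rfl

theorem card_le (x : ℕ) : ((P x).card : ℝ) ≤ Nat.primeCounting x := by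
  rw [card_P]
  exact_mod_cast Nat.monotone_primeCounting' (Nat.le_succ x)

theorem card_ge (x : ℕ) : (Nat.primeCounting x : ℝ) - 1 ≤ (P x).card := by
  have h : Nat.primeCounting x ≤ (P x).card + 1 := by
    rw [card_P, Nat.primeCounting, Nat.primeCounting', Nat.count_succ]
    split_ifs <;> simp
  have : ((Nat.primeCounting x : ℕ) : ℝ) ≤ (((P x).card + 1 : ℕ) : ℝ) := by exact_mod_cast h
  push_cast at this
  linarith

theorem R_eq (x : ℕ) : R (P x) = ∑ p ∈ P x, f p := by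
  unfold R f
  refine Finset.sum_congr rfl (fun p hp => ?_)
  refine Finset.sum_congr ?_ (fun q _ => rfl)
  unfold P at hp ⊢
  ext q
  simp only [mem_filter, mem_range] at hp ⊢
  constructor
  · rintro ⟨⟨_, h2⟩, h3⟩
    exact ⟨h3, h2⟩
  · rintro ⟨h3, h2⟩
    exact ⟨⟨h3.trans hp.1, h2⟩, h3⟩

theorem first (δ : ℝ) (hδ : 0 < δ) (hδ1 : δ ≤ 1 / 8) :
    ∀ᶠ x : ℕ in atTop, (1 - 6 * δ) * (Nat.primeCounting x : ℝ) ≤ ∑ p ∈ P x, f p := by
  have hpi : Tendsto (fun x : ℕ => (Nat.primeCounting x : ℝ) * Real.log x / x) atTop (𝓝 1) := by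
    have := Pool.Agent.Helper923.PNT.pi_tendsto.comp tendsto_natCast_atTop_atTop
    refine this.congr fun X => ?_
    simp
  set A : ℕ := ⌈1 / δ⌉₊ with hA
  set C : ℝ := Real.log ((A : ℝ) + 1) - Real.log δ with hC
  have hA1 : 1 / δ ≤ A := Nat.le_ceil _
  have hA8 : (1 : ℝ) ≤ A := by
    refine le_trans ?_ hA1
    rw [le_div_iff₀ hδ]
    linarith
  have hA8' : 1 ≤ A := by exact_mod_cast hA8
  have F1 : ∀ᶠ x : ℕ in atTop, 1 - δ ≤ (Nat.primeCounting x : ℝ) * Real.log x / x :=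
    hpi.eventually_const_le (by linarith)
  have F2 : ∀ᶠ x : ℕ in atTop, 1 / δ ≤ (Nat.primeCounting x : ℝ) :=
    (tendsto_natCast_atTop_atTop.comp Nat.tendsto_primeCounting).eventually_ge_atTop (1 / δ)
  have F3 : ∀ᶠ x : ℕ in atTop, C / δ ≤ Real.log x :=
    (Real.tendsto_log_atTop.comp tendsto_natCast_atTop_atTop).eventually_ge_atTop (C / δ)
  have F4 : ∀ᶠ x : ℕ in atTop, (A : ℝ) / δ ≤ (x : ℝ) :=
    tendsto_natCast_atTop_atTop.eventually_ge_atTop ((A : ℝ) / δ)
  filter_upwards [F1, F2, F3, F4, eventually_ge_atTop 3] with x h1 h2 h3 h4 h5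
  have hx3 : (3 : ℝ) ≤ x := by exact_mod_cast h5
  have hx0 : (0 : ℝ) < x := by linarith
  set L := Real.log (x : ℝ) with hL
  have hL0 : 0 < L := Real.log_pos (by linarith)
  set k : ℝ := ((P x).card : ℝ) with hk
  set pi : ℝ := (Nat.primeCounting x : ℝ) with hpi'
  have hpi0 : 0 < pi := lt_of_lt_of_le (by positivity) h2
  have hkpi : k ≤ pi := card_le x
  have hkge : (1 - δ) * pi ≤ k := by
    have e1 := card_ge x
    have e2 : 1 ≤ δ * pi := by
      rw [div_le_iff₀ hδ] at h2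
      linarith
    have e3 : pi - 1 ≤ k := e1
    linarith
  have hk0 : 0 ≤ k := Nat.cast_nonneg _
  set M : ℕ := ⌊δ * x⌋₊ with hM
  have hMle : (M : ℝ) ≤ δ * x := Nat.floor_le (by positivity)
  have hMge : δ * x ≤ (M : ℝ) + 1 := (Nat.lt_floor_add_one _).le
  have hAM : A ≤ M := by
    apply Nat.le_floor
    rw [div_le_iff₀ hδ] at h4
    linarith
  have hlog : (1 - δ) * L ≤ Real.log ((M : ℝ) + 1) - Real.log ((A : ℝ) + 1) := by
    have e1 : Real.log δ + L ≤ Real.log ((M : ℝ) + 1) := by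
      rw [hL, ← Real.log_mul hδ.ne' hx0.ne']
      exact Real.log_le_log (by positivity) hMge
    have e2 : C ≤ δ * L := by
      rw [div_le_iff₀ hδ] at h3
      linarith
    rw [hC] at e2
    linarith
  have hR := R_lower (P x) A M x (fun p hp => by
    unfold P at hp
    exact Finset.mem_range.1 (Finset.mem_filter.1 hp).1) hA8' hAM (by omega)
  rw [R_eq] at hR
  refine le_trans ?_ hR
  have s1 : k ^ 2 / ((1 + δ) * x) * ((1 - δ) * L) ≤
      k ^ 2 / ((x : ℝ) + M) * (Real.log ((M : ℝ) + 1) - Real.log ((A : ℝ) + 1)) := by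
    apply mul_le_mul _ hlog
    · exact mul_nonneg (by linarith) hL0.le
    · positivity
    · apply div_le_div_of_nonneg_left (by positivity) (by positivity) (by linarith)
  have s2 : k * (1 / (A : ℝ)) ≤ k * δ := by
    apply mul_le_mul_of_nonneg_left _ hk0
    rw [div_le_iff₀ (by linarith)]
    rw [div_le_iff₀ hδ] at hA1
    linarith
  have s3 : k * (1 - 4 * δ) ≤ k ^ 2 / ((1 + δ) * x) * ((1 - δ) * L) := by
    have e0 : k ^ 2 / ((1 + δ) * x) * ((1 - δ) * L) = k * ((k * L / x) * ((1 - δ) / (1 + δ))) := by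
      field_simp
    rw [e0]
    apply mul_le_mul_of_nonneg_left _ hk0
    have e1 : (1 - δ) * (1 - δ) ≤ k * L / x := by
      have : (1 - δ) * (pi * L / x) ≤ k * L / x := by
        have := mul_le_mul_of_nonneg_right hkge (div_nonneg hL0.le hx0.le)
        calc (1 - δ) * (pi * L / x) = (1 - δ) * pi * (L / x) := by ring
          _ ≤ k * (L / x) := this
          _ = k * L / x := by ring
      refine le_trans ?_ this
      exact mul_le_mul_of_nonneg_left h1 (by linarith)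
    have e2 : 0 ≤ (1 - δ) / (1 + δ) := div_nonneg (by linarith) (by linarith)
    refine le_trans ?_ (mul_le_mul_of_nonneg_right e1 e2)
    rw [← mul_div_assoc, le_div_iff₀ (by linarith)]
    nlinarith [sq_nonneg δ, mul_nonneg hδ.le (sq_nonneg δ)]
  have s4 : (1 - 6 * δ) * pi ≤ k * (1 - 5 * δ) := by
    have : (1 - δ) * pi * (1 - 5 * δ) ≤ k * (1 - 5 * δ) :=
      mul_le_mul_of_nonneg_right hkge (by linarith)
    refine le_trans ?_ this
    have e : (1 - 6 * δ) ≤ (1 - δ) * (1 - 5 * δ) := by nlinarith [sq_nonneg δ]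
    calc (1 - 6 * δ) * pi ≤ ((1 - δ) * (1 - 5 * δ)) * pi := mul_le_mul_of_nonneg_right e hpi0.le
      _ = _ := by ring
  linarith

theorem first' (ε : ℝ) (hε : 0 < ε) :
    ∀ᶠ x : ℕ in atTop, (1 - ε) * (Nat.primeCounting x : ℝ) ≤ ∑ p ∈ P x, f p := by
  have hδ : 0 < min (ε / 6) (1 / 8) := by positivity
  filter_upwards [first (min (ε / 6) (1 / 8)) hδ (min_le_right _ _)] with x hx
  refine le_trans ?_ hx
  apply mul_le_mul_of_nonneg_right _ (Nat.cast_nonneg _)
  have := min_le_left (ε / 6) (1 / 8)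
  linarith

theorem base : ∀ ε : ℝ, 0 < ε → ∃ x₀ : ℕ, ∀ x : ℕ, x₀ ≤ x →
    (1 - ε) * (Nat.primeCounting x : ℝ) ≤ ∑ p ∈ P x, f p ∧
    (1 - ε) * (Nat.primeCounting x : ℝ) ≤ ∑ p ∈ P x, (f p) ^ 2 ∧
    ∑ p ∈ P x, (f p - 1) ^ 2 ≤ ∑ p ∈ P x, (f p) ^ 2 -
      (1 - ε) * (Nat.primeCounting x : ℝ) := by
  intro ε hε
  have hδ : 0 < min (ε / 2) (1 / 2) := by positivity
  have F2 : ∀ᶠ x : ℕ in atTop, (2 : ℝ) ≤ (Nat.primeCounting x : ℝ) :=
    (tendsto_natCast_atTop_atTop.comp Nat.tendsto_primeCounting).eventually_ge_atTop 2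
  obtain ⟨x₀, hx₀⟩ := eventually_atTop.1 ((first' (min (ε / 2) (1 / 2)) hδ).and F2)
  refine ⟨x₀, fun x hx => ?_⟩
  obtain ⟨h1, h2⟩ := hx₀ x hx
  have hm1 := min_le_left (ε / 2) (1 / 2)
  have hm2 := min_le_right (ε / 2) (1 / 2)
  set δ := min (ε / 2) (1 / 2) with hδ'
  set pi : ℝ := (Nat.primeCounting x : ℝ) with hpi
  set S := ∑ p ∈ P x, f p with hS
  have hkpi : ((P x).card : ℝ) ≤ pi := card_le x
  have hk1 : (1 : ℝ) ≤ (P x).card := by
    have := card_ge x
    linarith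
  have hcs := sq_sum_le_card_mul_sum_sq (s := P x) (f := f)
  have hS0 : (1 - δ) * pi ≤ S := h1
  refine ⟨le_trans ?_ hS0, ?_, ?_⟩
  · apply mul_le_mul_of_nonneg_right _ (by linarith)
    linarith
  · have hSq : ((1 - δ) * pi) ^ 2 ≤ S ^ 2 := by
      apply pow_le_pow_left₀ _ hS0
      apply mul_nonneg <;> linarith
    have e1 : (1 - ε) * pi * (P x).card ≤ (P x).card * ∑ p ∈ P x, (f p) ^ 2 := by
      refine le_trans ?_ (le_trans hSq hcs)
      by_cases hε1 : 1 ≤ ε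
      · have : (1 - ε) * pi * (P x).card ≤ 0 := by
          apply mul_nonpos_of_nonpos_of_nonneg _ (by linarith)
          apply mul_nonpos_of_nonpos_of_nonneg <;> linarith
        exact this.trans (sq_nonneg _)
      · have h3 : (1 - ε) * pi * (P x).card ≤ (1 - ε) * pi * pi :=
          mul_le_mul_of_nonneg_left hkpi (mul_nonneg (by linarith) (by linarith))
        have h4 : (1 - ε) ≤ (1 - δ) ^ 2 := by nlinarith [sq_nonneg δ]
        have h5 : (1 - ε) * pi * pi ≤ (1 - δ) ^ 2 * (pi * pi) := by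
          rw [mul_assoc]
          exact mul_le_mul_of_nonneg_right h4 (mul_self_nonneg _)
        calc (1 - ε) * pi * (P x).card ≤ (1 - δ) ^ 2 * (pi * pi) := h3.trans h5
          _ = ((1 - δ) * pi) ^ 2 := by ring
    have e2 : (P x).card * ((1 - ε) * pi) ≤ (P x).card * ∑ p ∈ P x, (f p) ^ 2 := by linarith
    exact le_of_mul_le_mul_left e2 (by linarith)
  · have e3 : ∑ p ∈ P x, (f p - 1) ^ 2 =
        ∑ p ∈ P x, (f p) ^ 2 - 2 * S + (P x).card := by
      have : ∀ p ∈ P x, (f p - 1) ^ 2 = (f p) ^ 2 - 2 * f p + 1 := fun p _ => by ring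
      rw [Finset.sum_congr rfl this, Finset.sum_add_distrib, Finset.sum_sub_distrib,
        ← Finset.mul_sum, Finset.sum_const, nsmul_eq_mul, mul_one]
    rw [e3]
    have h6 : 2 * ((1 - δ) * pi) ≤ 2 * S := by linarith
    have h7 : (1 - ε) * pi ≤ 2 * ((1 - δ) * pi) - pi := by
      have : (1 - ε) * pi ≤ (1 - 2 * δ) * pi :=
        mul_le_mul_of_nonneg_right (by linarith) (by linarith)
      linarith
    linarith

theorem fourth : ∃ C : ℝ, 0 < C ∧ ∀ᶠ x : ℕ in atTop,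
    ∑ p ∈ P x, (f p) ^ 4 ≤ C * (Nat.primeCounting x : ℝ) := by
  obtain ⟨C, hC, hu⟩ := Pool.Agent.H362R2.FS.upper
  have hpi : Tendsto (fun x : ℕ => (Nat.primeCounting x : ℝ) * Real.log x / x) atTop (𝓝 1) := by
    have := Pool.Agent.Helper923.PNT.pi_tendsto.comp tendsto_natCast_atTop_atTop
    refine this.congr fun X => ?_
    simp
  have F1 : ∀ᶠ x : ℕ in atTop, 1 / 2 ≤ (Nat.primeCounting x : ℝ) * Real.log x / x :=
    hpi.eventually_const_le (by norm_num)
  refine ⟨2 * C, by positivity, ?_⟩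
  filter_upwards [F1, eventually_ge_atTop 2] with x h1 h2
  have hx2 : (2 : ℝ) ≤ x := by exact_mod_cast h2
  have hL : 0 < Real.log x := Real.log_pos (by linarith)
  refine (hu x h2).trans ?_
  rw [le_div_iff₀ (by linarith)] at h1
  rw [div_le_iff₀ hL]
  nlinarith

/-- the exceptional primes -/
noncomputable def E (δ : ℝ) (x : ℕ) : Finset ℕ := by
  classical exact (P x).filter (fun p => δ < |f p - 1|)

theorem mem_E (δ : ℝ) (x p : ℕ) : p ∈ E δ x ↔ p ∈ P x ∧ δ < |f p - 1| := by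
  classical
  unfold E
  rw [Finset.mem_filter]

theorem f_nonneg (n : ℕ) : 0 ≤ f n := by
  unfold f
  apply Finset.sum_nonneg
  intro q hq
  have h1 := Finset.mem_range.1 (Finset.mem_filter.1 hq).1
  have : (q : ℝ) < n := by exact_mod_cast h1
  apply div_nonneg (by norm_num)
  linarith

theorem cheb (δ : ℝ) (hδ : 0 < δ) (x : ℕ) :
    δ ^ 2 * ((E δ x).card : ℝ) ≤ ∑ p ∈ P x, (f p - 1) ^ 2 := by
  have hsub : E δ x ⊆ P x := fun p hp => ((mem_E δ x p).1 hp).1
  calc δ ^ 2 * ((E δ x).card : ℝ) = ∑ p ∈ E δ x, δ ^ 2 := by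
        rw [Finset.sum_const, nsmul_eq_mul]
        ring
    _ ≤ ∑ p ∈ E δ x, (f p - 1) ^ 2 := by
        refine Finset.sum_le_sum (fun p hp => ?_)
        have h := ((mem_E δ x p).1 hp).2
        rw [← sq_abs (f p - 1)]
        exact pow_le_pow_left₀ hδ.le h.le 2
    _ ≤ ∑ p ∈ P x, (f p - 1) ^ 2 :=
        Finset.sum_le_sum_of_subset_of_nonneg hsub (fun _ _ _ => sq_nonneg _)

theorem split (δ K : ℝ) (hδ : 0 < δ) (hK : 0 < K) (x : ℕ) :
    ∑ p ∈ P x, (f p) ^ 2 ≤ (1 + δ) ^ 2 * (Nat.primeCounting x : ℝ) +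
      K ^ 2 * ((E δ x).card : ℝ) + (1 / K ^ 2) * ∑ p ∈ P x, (f p) ^ 4 := by
  classical
  have hsub : E δ x ⊆ P x := fun p hp => ((mem_E δ x p).1 hp).1
  have h1 : ∀ p ∈ P x, (f p) ^ 2 ≤ (1 + δ) ^ 2 + (if p ∈ E δ x then K ^ 2 else 0) +
      (1 / K ^ 2) * (f p) ^ 4 := by
    intro p hp
    have h0 := f_nonneg p
    have h4 : 0 ≤ (1 / K ^ 2) * (f p) ^ 4 := by positivity
    split_ifs with hE
    · by_cases hfK : f p ≤ K
      · have : (f p) ^ 2 ≤ K ^ 2 := pow_le_pow_left₀ h0 hfK 2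
        have : 0 ≤ (1 + δ) ^ 2 := sq_nonneg _
        linarith
      · have hKf : K ≤ f p := (not_le.1 hfK).le
        have h5 : K ^ 2 ≤ (f p) ^ 2 := pow_le_pow_left₀ hK.le hKf 2
        have h6 : (f p) ^ 2 ≤ (1 / K ^ 2) * (f p) ^ 4 := by
          rw [one_div, inv_mul_eq_div, le_div_iff₀ (by positivity)]
          calc (f p) ^ 2 * K ^ 2 ≤ (f p) ^ 2 * (f p) ^ 2 :=
                mul_le_mul_of_nonneg_left h5 (sq_nonneg _)
            _ = (f p) ^ 4 := by ring
        have : 0 ≤ (1 + δ) ^ 2 := sq_nonneg _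
        have : 0 ≤ K ^ 2 := sq_nonneg _
        linarith
    · have h5 : ¬ δ < |f p - 1| := fun h => hE ((mem_E δ x p).2 ⟨hp, h⟩)
      have h6 := abs_le.1 (not_lt.1 h5)
      have h7 : (f p) ^ 2 ≤ (1 + δ) ^ 2 := pow_le_pow_left₀ h0 (by linarith [h6.2]) 2
      linarith
  refine (Finset.sum_le_sum h1).trans ?_
  rw [Finset.sum_add_distrib, Finset.sum_add_distrib, Finset.sum_const, nsmul_eq_mul,
    ← Finset.mul_sum]
  have h2 : ∑ p ∈ P x, (if p ∈ E δ x then K ^ 2 else 0) = K ^ 2 * ((E δ x).card : ℝ) := by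
    rw [Finset.sum_ite_mem, Finset.inter_eq_right.2 hsub, Finset.sum_const, nsmul_eq_mul]
    ring
  rw [h2]
  have h3 : ((P x).card : ℝ) * (1 + δ) ^ 2 ≤ (1 + δ) ^ 2 * (Nat.primeCounting x : ℝ) := by
    rw [mul_comm]
    exact mul_le_mul_of_nonneg_left (card_le x) (sq_nonneg _)
  linarith

theorem equivalence :
    Tendsto (fun x : ℕ => (∑ p ∈ P x, (f p) ^ 2) / (Nat.primeCounting x : ℝ)) atTop (𝓝 1) ↔
    ∀ δ : ℝ, 0 < δ →
      Tendsto (fun x : ℕ => ((E δ x).card : ℝ) / (Nat.primeCounting x : ℝ)) atTop (𝓝 0) := by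
  have F2 : ∀ᶠ x : ℕ in atTop, (2 : ℝ) ≤ (Nat.primeCounting x : ℝ) :=
    (tendsto_natCast_atTop_atTop.comp Nat.tendsto_primeCounting).eventually_ge_atTop 2
  constructor
  · intro h δ hδ
    rw [Metric.tendsto_nhds]
    intro ε hε
    set η : ℝ := ε * δ ^ 2 / 4 with hη
    have hη0 : 0 < η := by positivity
    obtain ⟨x₀, hx₀⟩ := base η hη0
    have h1 : ∀ᶠ x : ℕ in atTop,
        (∑ p ∈ P x, (f p) ^ 2) / (Nat.primeCounting x : ℝ) ≤ 1 + η :=
      h.eventually_le_const (by linarith)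
    filter_upwards [h1, F2, eventually_ge_atTop x₀] with x h1 h2 h3
    have h4 := (hx₀ x h3).2.2
    have h5 := cheb δ hδ x
    have hpos : (0 : ℝ) < Nat.primeCounting x := by linarith
    rw [div_le_iff₀ hpos] at h1
    rw [Real.dist_eq, sub_zero, abs_of_nonneg (by positivity), div_lt_iff₀ hpos]
    have h6 : δ ^ 2 * ((E δ x).card : ℝ) ≤ 2 * η * (Nat.primeCounting x : ℝ) := by linarith
    have hδ2 : 0 < δ ^ 2 := by positivity
    have h7 : δ ^ 2 * ((E δ x).card : ℝ) < δ ^ 2 * (ε * (Nat.primeCounting x : ℝ)) := by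
      refine lt_of_le_of_lt h6 ?_
      rw [hη]
      have : 0 < ε * δ ^ 2 * (Nat.primeCounting x : ℝ) := by positivity
      nlinarith
    exact lt_of_mul_lt_mul_left h7 hδ2.le
  · intro h
    rw [Metric.tendsto_nhds]
    intro ε hε
    obtain ⟨C, hC, hf⟩ := fourth
    set δ : ℝ := min (ε / 12) 1 with hδ'
    have hδ : 0 < δ := by positivity
    have hδ1 : δ ≤ 1 := min_le_right _ _
    have hδ2 : δ ≤ ε / 12 := min_le_left _ _
    set K : ℝ := Real.sqrt (4 * C / ε) with hK'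
    have hK : 0 < K := Real.sqrt_pos.2 (by positivity)
    have hK2 : K ^ 2 = 4 * C / ε := Real.sq_sqrt (by positivity)
    have hK2' : 1 / K ^ 2 * C = ε / 4 := by
      rw [hK2]
      field_simp
    have h1 : ∀ᶠ x : ℕ in atTop,
        ((E δ x).card : ℝ) / (Nat.primeCounting x : ℝ) ≤ ε / (8 * K ^ 2) :=
      (h δ hδ).eventually_le_const (by positivity)
    obtain ⟨x₀, hx₀⟩ := base (ε / 2) (by positivity)
    filter_upwards [h1, F2, hf, eventually_ge_atTop x₀] with x h1 h2 h3 h4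
    have h5 := (hx₀ x h4).2.1
    have h6 := split δ K hδ hK x
    have hpos : (0 : ℝ) < Nat.primeCounting x := by linarith
    rw [div_le_iff₀ hpos] at h1
    have h7 : K ^ 2 * ((E δ x).card : ℝ) ≤ ε / 8 * (Nat.primeCounting x : ℝ) := by
      have := mul_le_mul_of_nonneg_left h1 (sq_nonneg K)
      refine this.trans (le_of_eq ?_)
      have hne : K ^ 2 ≠ 0 := by positivity
      field_simp
    have h8 : (1 / K ^ 2) * ∑ p ∈ P x, (f p) ^ 4 ≤ ε / 4 * (Nat.primeCounting x : ℝ) := by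
      have := mul_le_mul_of_nonneg_left h3 (by positivity : (0 : ℝ) ≤ 1 / K ^ 2)
      refine this.trans (le_of_eq ?_)
      rw [← mul_assoc, hK2']
    have h9 : (1 + δ) ^ 2 ≤ 1 + ε / 4 := by nlinarith
    have h10 : (1 + δ) ^ 2 * (Nat.primeCounting x : ℝ) ≤ (1 + ε / 4) * (Nat.primeCounting x : ℝ) :=
      mul_le_mul_of_nonneg_right h9 hpos.le
    rw [Real.dist_eq, abs_lt]
    have hle : (∑ p ∈ P x, (f p) ^ 2) / (Nat.primeCounting x : ℝ) ≤ 1 + 5 * ε / 8 := by
      rw [div_le_iff₀ hpos]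
      linarith
    have hge : 1 - ε / 2 ≤ (∑ p ∈ P x, (f p) ^ 2) / (Nat.primeCounting x : ℝ) := by
      rw [le_div_iff₀ hpos]
      exact h5
    constructor <;> linarith

open scoped Classical in
theorem result :
    (∀ ε : ℝ, 0 < ε → ∃ x₀ : ℕ, ∀ x : ℕ, x₀ ≤ x →
      (1 - ε) * (Nat.primeCounting x : ℝ) ≤ ∑ p ∈ (range x).filter Nat.Prime,
        ∑ q ∈ (range p).filter Nat.Prime, (1 : ℝ) / ((p : ℝ) - q) ∧
      (1 - ε) * (Nat.primeCounting x : ℝ) ≤ ∑ p ∈ (range x).filter Nat.Prime,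
        (∑ q ∈ (range p).filter Nat.Prime, (1 : ℝ) / ((p : ℝ) - q)) ^ 2) ∧
    (∃ C : ℝ, ∃ x₀ : ℕ, ∀ x : ℕ, x₀ ≤ x → ∑ p ∈ (range x).filter Nat.Prime,
      (∑ q ∈ (range p).filter Nat.Prime, (1 : ℝ) / ((p : ℝ) - q)) ^ 4 ≤
        C * (Nat.primeCounting x : ℝ)) ∧
    (Tendsto (fun x : ℕ => (∑ p ∈ (range x).filter Nat.Prime,
      (∑ q ∈ (range p).filter Nat.Prime, (1 : ℝ) / ((p : ℝ) - q)) ^ 2) /
        (Nat.primeCounting x : ℝ)) atTop (𝓝 1) ↔
      ∀ δ : ℝ, 0 < δ → Tendsto (fun x : ℕ => ((((range x).filter Nat.Prime).filter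
        (fun p : ℕ => δ < |(∑ q ∈ (range p).filter Nat.Prime, (1 : ℝ) / ((p : ℝ) - q)) - 1|)).card :
          ℝ) / (Nat.primeCounting x : ℝ)) atTop (𝓝 0)) := by
  refine ⟨fun ε hε => ?_, ?_, ?_⟩
  · obtain ⟨x₀, hx₀⟩ := base ε hε
    exact ⟨x₀, fun x hx => ⟨(hx₀ x hx).1, (hx₀ x hx).2.1⟩⟩
  · obtain ⟨C, _, hC⟩ := fourth
    obtain ⟨x₀, hx₀⟩ := eventually_atTop.1 hC
    exact ⟨C, x₀, fun x hx => hx₀ x hx⟩
  · have h := equivalence
    unfold E P f at h
    convert h using 8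

end Pool.Agent.Results.MP_3341c6_nt.SharpLowerBound
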